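import Pool.Agent.Q217.CMJ.Law

set_option autoImplicit false

open Filter Topology MeasureTheory ProbabilityTheory
open scoped ENNReal

namespace Pool.Agent.Q217.CMJ

abbrev Om := List ℕ × ℕ → ℝ≥0∞

/-- the finitely many positions controlled at level `k` -/
def D (k : ℕ) : Finset ℕ := Finset.range (k + 1) ∪ (Finset.range k).image g

theorem D_card (k : ℕ) : (D k).card ≤ 2 * k + 1 := by
  unfold D
  refine (Finset.card_union_le _ _).trans ?_
  have := Finset.card_image_le (s := Finset.range k) (f := g)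
  rw [Finset.card_range] at this ⊢
  omega

/-- `v` is good at level `k` -/
def Good (k : ℕ) (v : List ℕ) : Set Om := {x | ∀ j ∈ D k, x (v, j) ∈ short j k}

theorem Good_prob (k : ℕ) (v : List ℕ) : (2⁻¹ : ℝ≥0∞) ^ ((k + 1) * (2 * k + 1)) ≤ P (Good k v) := by
  set s : Finset (List ℕ × ℕ) := (D k).image (fun j => (v, j)) with hs
  have e : Good k v = Set.pi s (fun p => short p.2 k) := by
    ext x
    simp only [Good, Set.mem_ofPred_eq, Set.mem_pi, hs, Finset.coe_image, Set.mem_image,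
      Finset.mem_coe]
    constructor
    · rintro h _ ⟨j, hj, rfl⟩
      exact h j hj
    · intro h j hj
      exact h (v, j) ⟨j, hj, rfl⟩
  rw [e]
  unfold P
  rw [Measure.infinitePi_pi _ (fun i _ => short_meas _ _), hs,
    Finset.prod_image (fun i _ j _ hij => (Prod.mk.inj hij).2)]
  calc (2⁻¹ : ℝ≥0∞) ^ ((k + 1) * (2 * k + 1)) ≤ ((2⁻¹ : ℝ≥0∞) ^ (k + 1)) ^ (D k).card := by
        rw [← pow_mul]
        refine pow_le_pow_right_of_le_one' (by norm_num) ?_
        exact Nat.mul_le_mul_left _ (D_card k)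
    _ = ∏ j ∈ D k, (2⁻¹ : ℝ≥0∞) ^ (k + 1) := by rw [Finset.prod_const]
    _ ≤ ∏ j ∈ D k, μ (v, j).2 (short (v, j).2 k) := Finset.prod_le_prod' fun j _ => μ_short j k

/-- chains of good individuals -/
def Chain : ℕ → ℕ → List ℕ → Set Om
  | 0, _, _ => Set.univ
  | (n + 1), k, v => Good k v ∩ ⋃ c ∈ Finset.range (g k), Chain n (k + 1) (c :: v)

theorem Chain_anti (n k : ℕ) (v : List ℕ) : Chain (n + 1) k v ⊆ Chain n k v := by
  induction n generalizing k v with
  | zero => exact Set.subset_univ _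
  | succ n ih =>
    intro x hx
    obtain ⟨h1, h2⟩ := hx
    refine ⟨h1, ?_⟩
    simp only [Set.mem_iUnion] at h2 ⊢
    obtain ⟨c, hc, h3⟩ := h2
    exact ⟨c, hc, ih _ _ h3⟩

/-- σ-algebra generated by the coordinates in `S` -/
def sig (S : Set (List ℕ × ℕ)) : MeasurableSpace Om :=
  ⨆ i ∈ S, MeasurableSpace.comap (fun x : Om => x i) inferInstance

theorem sig_mono {S T : Set (List ℕ × ℕ)} (h : S ⊆ T) : sig S ≤ sig T :=
  biSup_mono fun _ hi => h hi

theorem sig_le (S : Set (List ℕ × ℕ)) : sig S ≤ MeasurableSpace.pi := by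
  refine iSup₂_le fun i _ => ?_
  exact (measurable_pi_apply i).comap_le

theorem meas_coord {S : Set (List ℕ × ℕ)} {p : List ℕ × ℕ} (hp : p ∈ S) {s : Set ℝ≥0∞}
    (hs : MeasurableSet s) : MeasurableSet[sig S] {x : Om | x p ∈ s} := by
  have h1 : MeasurableSpace.comap (fun x : Om => x p) inferInstance ≤ sig S :=
    le_biSup (fun i => MeasurableSpace.comap (fun x : Om => x i) inferInstance) hp
  exact h1 _ ⟨s, hs, rfl⟩

theorem indep_sig {S T : Set (List ℕ × ℕ)} (h : Disjoint S T) : Indep (sig S) (sig T) P := by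
  have h1 : iIndepFun (fun (p : List ℕ × ℕ) (x : Om) => x p) P := by
    have := iIndepFun_infinitePi (P := fun p : List ℕ × ℕ => μ p.2) (X := fun _ x => x)
      (fun _ => measurable_id)
    exact this
  exact indep_iSup_of_disjoint (fun i => (measurable_pi_apply i).comap_le) h1.iIndep h

/-- coordinates of `v` and its descendants -/
def Sub (v : List ℕ) : Set (List ℕ × ℕ) := {p | v <:+ p.1}

theorem Sub_cons (c : ℕ) (v : List ℕ) : Sub (c :: v) ⊆ Sub v := fun p hp =>
  (List.suffix_cons c v).trans hp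

theorem Good_meas (k : ℕ) (v : List ℕ) {S : Set (List ℕ × ℕ)} (hS : ∀ j, (v, j) ∈ S) :
    MeasurableSet[sig S] (Good k v) := by
  have e : Good k v = ⋂ j ∈ D k, {x : Om | x (v, j) ∈ short j k} := by
    ext x
    simp [Good]
  rw [e]
  exact Finset.measurableSet_biInter (D k) fun j _ => meas_coord (hS j) (short_meas j k)

theorem Chain_meas (n k : ℕ) (v : List ℕ) : MeasurableSet[sig (Sub v)] (Chain n k v) := by
  induction n generalizing k v with
  | zero => exact MeasurableSet.univ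
  | succ n ih =>
    refine MeasurableSet.inter (Good_meas k v fun j => List.suffix_rfl) ?_
    refine Finset.measurableSet_biUnion _ fun c _ => ?_
    exact sig_mono (Sub_cons c v) _ (ih (k + 1) (c :: v))

theorem Sub_disjoint {c d : ℕ} (h : c ≠ d) (v : List ℕ) : Disjoint (Sub (c :: v)) (Sub (d :: v)) := by
  rw [Set.disjoint_left]
  intro p h1 h2
  have h3 : (c :: v) = (d :: v) := by
    have h4 : (c :: v).length = (d :: v).length := by simp
    exact List.IsSuffix.eq_of_length (List.suffix_of_suffix_length_le h1 h2 h4.le) h4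
  exact h (List.cons.inj h3).1

theorem own_disjoint (c : ℕ) (v : List ℕ) :
    Disjoint {p : List ℕ × ℕ | p.1 = v} (Sub (c :: v)) := by
  rw [Set.disjoint_left]
  intro p h1 h2
  have h3 : (c :: v) <:+ p.1 := h2
  have h4 : p.1 = v := h1
  rw [h4] at h3
  have := h3.length_le
  simp at this

/-- independence of complements of events attached to distinct children -/
theorem prod_compl (v : List ℕ) (E : ℕ → Set Om) (hE : ∀ c, MeasurableSet[sig (Sub (c :: v))] (E c))
    (r : ℝ≥0∞) (hr : ∀ c, P (E c)ᶜ ≤ r) (m : ℕ) :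
    P (⋂ c ∈ Finset.range m, (E c)ᶜ) ≤ r ^ m := by
  induction m with
  | zero => simp
  | succ m ih =>
    have e : (⋂ c ∈ Finset.range (m + 1), (E c)ᶜ) = (⋂ c ∈ Finset.range m, (E c)ᶜ) ∩ (E m)ᶜ := by
      ext x
      simp only [Set.mem_iInter, Finset.mem_range, Set.mem_inter_iff]
      constructor
      · intro h
        exact ⟨fun c hc => h c (by omega), h m (by omega)⟩
      · rintro ⟨h1, h2⟩ c hc
        rcases Nat.lt_succ_iff_lt_or_eq.mp hc with h | rfl
        · exact h1 c h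
        · exact h2
    set S : Set (List ℕ × ℕ) := ⋃ c ∈ Finset.range m, Sub (c :: v) with hS
    have hdis : Disjoint S (Sub (m :: v)) := by
      rw [hS, Set.disjoint_iUnion₂_left]
      intro c hc
      exact Sub_disjoint (by rw [Finset.mem_range] at hc; omega) v
    have m1 : MeasurableSet[sig S] (⋂ c ∈ Finset.range m, (E c)ᶜ) := by
      refine Finset.measurableSet_biInter _ fun c hc => ?_
      refine MeasurableSet.compl ?_
      exact sig_mono (Set.subset_biUnion_of_mem (u := fun c => Sub (c :: v)) (Finset.mem_coe.mpr hc)) _ (hE c)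
    have hind := (indep_sig hdis)
    rw [e, (Indep_iff _ _ _).mp hind _ _ m1 (hE m).compl, pow_succ]
    exact mul_le_mul' ih (hr m)

theorem half_pow (N : ℕ) (hN : 1 ≤ N) : (1 - (N : ℝ≥0∞)⁻¹) ^ N ≤ 2⁻¹ := by
  have hN' : (1 : ℝ) ≤ N := by exact_mod_cast hN
  have h0 : (0 : ℝ) ≤ 1 - (N : ℝ)⁻¹ := by
    have := inv_le_one_of_one_le₀ hN'
    linarith
  have e : (1 - (N : ℝ≥0∞)⁻¹) = ENNReal.ofReal (1 - (N : ℝ)⁻¹) := by
    rw [ENNReal.ofReal_sub _ (by positivity), ENNReal.ofReal_one, ENNReal.ofReal_inv_of_pos (by linarith),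
      ENNReal.ofReal_natCast]
  have e2 : (2⁻¹ : ℝ≥0∞) = ENNReal.ofReal (2⁻¹) := by
    rw [ENNReal.ofReal_inv_of_pos (by norm_num)]
    norm_num
  rw [e, e2, ← ENNReal.ofReal_pow h0]
  refine ENNReal.ofReal_le_ofReal ?_
  have h1 : 1 - (N : ℝ)⁻¹ ≤ Real.exp (-(N : ℝ)⁻¹) := by
    have := Real.add_one_le_exp (-(N : ℝ)⁻¹)
    linarith
  calc (1 - (N : ℝ)⁻¹) ^ N ≤ (Real.exp (-(N : ℝ)⁻¹)) ^ N := pow_le_pow_left₀ h0 h1 N
    _ = Real.exp (-1) := by
        rw [← Real.exp_nat_mul]
        congr 1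
        field_simp
    _ ≤ 2⁻¹ := by
        rw [Real.exp_neg]
        refine inv_anti₀ (by norm_num) ?_
        have := Real.add_one_le_exp (1 : ℝ)
        linarith

theorem g_inv (k : ℕ) : ((g k : ℕ) : ℝ≥0∞)⁻¹ = (2⁻¹ : ℝ≥0∞) ^ ((k + 2) * (2 * k + 3)) * 2⁻¹ := by
  unfold g
  push_cast
  rw [ENNReal.mul_inv (by simp) (by simp), ENNReal.inv_pow, mul_comm]

theorem Chain_prob (n k : ℕ) (v : List ℕ) :
    (2⁻¹ : ℝ≥0∞) ^ ((k + 1) * (2 * k + 1)) * 2⁻¹ ≤ P (Chain n k v) := by
  induction n generalizing k v with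
  | zero =>
    show _ ≤ P Set.univ
    rw [measure_univ]
    exact mul_le_one' (pow_le_one' (by norm_num) _) (by norm_num)
  | succ n ih =>
    have hdis : Disjoint {p : List ℕ × ℕ | p.1 = v} (⋃ c ∈ Finset.range (g k), Sub (c :: v)) := by
      rw [Set.disjoint_iUnion₂_right]
      exact fun c _ => own_disjoint c v
    have m1 : MeasurableSet[sig {p : List ℕ × ℕ | p.1 = v}] (Good k v) := Good_meas k v fun j => rfl
    have m2 : MeasurableSet[sig (⋃ c ∈ Finset.range (g k), Sub (c :: v))]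
        (⋃ c ∈ Finset.range (g k), Chain n (k + 1) (c :: v)) := by
      refine Finset.measurableSet_biUnion _ fun c hc => ?_
      exact sig_mono (Set.subset_biUnion_of_mem (u := fun c => Sub (c :: v)) (Finset.mem_coe.mpr hc)) _
        (Chain_meas n (k + 1) (c :: v))
    have h1 : P (Chain (n + 1) k v) = P (Good k v) * P (⋃ c ∈ Finset.range (g k), Chain n (k + 1) (c :: v)) :=
      (Indep_iff _ _ _).mp (indep_sig hdis) _ _ m1 m2
    rw [h1]
    refine mul_le_mul' (Good_prob k v) ?_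
    -- the union has probability at least 1/2
    have hg : 1 ≤ g k := by
      unfold g
      exact Nat.succ_le_of_lt (by positivity)
    have h2 : P (⋂ c ∈ Finset.range (g k), (Chain n (k + 1) (c :: v))ᶜ) ≤ 2⁻¹ := by
      refine (prod_compl v (fun c => Chain n (k + 1) (c :: v)) (fun c => Chain_meas n (k + 1) (c :: v))
        (1 - ((g k : ℕ) : ℝ≥0∞)⁻¹) (fun c => ?_) (g k)).trans (half_pow (g k) hg)
      have hm : MeasurableSet (Chain n (k + 1) (c :: v)) := sig_le _ _ (Chain_meas n (k + 1) (c :: v))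
      rw [measure_compl hm (measure_ne_top _ _), measure_univ]
      refine tsub_le_tsub_left ?_ 1
      rw [g_inv]
      exact ih (k + 1) (c :: v)
    have h3 : (⋃ c ∈ Finset.range (g k), Chain n (k + 1) (c :: v)) =
        (⋂ c ∈ Finset.range (g k), (Chain n (k + 1) (c :: v))ᶜ)ᶜ := by
      simp only [Set.compl_iInter, compl_compl]
    have hm3 : MeasurableSet (⋂ c ∈ Finset.range (g k), (Chain n (k + 1) (c :: v))ᶜ) :=
      Finset.measurableSet_biInter _ fun c _ => (sig_le _ _ (Chain_meas n (k + 1) (c :: v))).compl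
    rw [h3, measure_compl hm3 (measure_ne_top _ _), measure_univ]
    calc (2⁻¹ : ℝ≥0∞) = 1 - 2⁻¹ := by rw [ENNReal.one_sub_inv_two]
      _ ≤ _ := tsub_le_tsub_left h2 1

end Pool.Agent.Q217.CMJ
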