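import Mathlib

set_option autoImplicit false

open Filter Topology
open scoped ENNReal

namespace Pool.Agent.Q217.CMJ

/-- birth times: the individual `i :: u` is the `i`-th child (counted from `0`) of `u` -/
noncomputable def birth (x : List ℕ × ℕ → ℝ≥0∞) : List ℕ → ℝ≥0∞
  | [] => 0
  | i :: u => birth x u + ∑ j ∈ Finset.range (i + 1), x (u, j)

/-- explosion time: the infimum of the times by which infinitely many individuals are born -/
noncomputable def explosionTime (x : List ℕ × ℕ → ℝ≥0∞) : ℝ≥0∞ :=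
  sInf {t | {u | birth x u ≤ t}.Infinite}

/-- individuals born before explosion -/
def tree (x : List ℕ × ℕ → ℝ≥0∞) : Set (List ℕ) := {u | birth x u < explosionTime x}

/-- `u` is a vertex of infinite degree of the tree at explosion -/
def IsStar (x : List ℕ × ℕ → ℝ≥0∞) (u : List ℕ) : Prop :=
  u ∈ tree x ∧ {i : ℕ | (i :: u) ∈ tree x}.Infinite

variable {x : List ℕ × ℕ → ℝ≥0∞}

theorem finite_children (hsum : ∀ u, ∑' j, x (u, j) = ∞) (u : List ℕ) {T : ℝ≥0∞} (hT : T ≠ ∞) :
    {i : ℕ | birth x (i :: u) ≤ T}.Finite := by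
  by_contra hinf
  have hinf' : {i : ℕ | birth x (i :: u) ≤ T}.Infinite := hinf
  have h1 : ∀ n, ∑ j ∈ Finset.range n, x (u, j) ≤ T := by
    intro n
    obtain ⟨i, hi, hni⟩ := hinf'.exists_gt n
    have hi' : birth x u + ∑ j ∈ Finset.range (i + 1), x (u, j) ≤ T := hi
    refine le_trans ?_ (le_trans le_add_self hi')
    exact Finset.sum_le_sum_of_subset (Finset.range_mono (by omega))
  have h2 : ∑' j, x (u, j) ≤ T := by
    rw [ENNReal.tsum_eq_iSup_nat]
    exact iSup_le h1
  rw [hsum u] at h2
  exact hT (top_le_iff.mp h2)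

theorem birth_lt (hpos : ∀ p, x p ≠ 0) (i : ℕ) (u : List ℕ) (h : birth x u ≠ ∞) :
    birth x u < birth x (i :: u) := by
  show birth x u < birth x u + ∑ j ∈ Finset.range (i + 1), x (u, j)
  refine ENNReal.lt_add_right h ?_
  intro h0
  rw [Finset.sum_eq_zero_iff] at h0
  exact hpos (u, 0) (h0 0 (by simp))

theorem birth_le (i : ℕ) (u : List ℕ) : birth x u ≤ birth x (i :: u) := le_self_add

theorem no_star (hsum : ∀ u, ∑' j, x (u, j) = ∞) (hτ : explosionTime x ≠ ∞) (u : List ℕ) :
    ¬ IsStar x u := by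
  rintro ⟨-, hinf⟩
  refine hinf ((finite_children hsum u hτ).subset fun i hi => ?_)
  have h : birth x (i :: u) < explosionTime x := hi
  exact h.le

theorem tree_infinite (hpos : ∀ p, x p ≠ 0) (hsum : ∀ u, ∑' j, x (u, j) = ∞)
    (hτ : explosionTime x ≠ ∞) : (tree x).Infinite := by
  intro hfin
  set s := explosionTime x with hs
  set A : Set (List ℕ) := {u | birth x u ≤ s} with hA
  have hAfin : A.Finite := by
    have h1 : A ⊆ {[]} ∪ ⋃ y ∈ tree x, (fun i => i :: y) '' {i | birth x (i :: y) ≤ s} := by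
      intro u hu
      cases u with
      | nil => exact Or.inl rfl
      | cons i y =>
        right
        have hu' : birth x (i :: y) ≤ s := hu
        have h2 : birth x y ≠ ∞ := ne_top_of_le_ne_top hτ ((birth_le i y).trans hu')
        have h3 : birth x y < s := (birth_lt hpos i y h2).trans_le hu'
        simp only [Set.mem_iUnion]
        exact ⟨y, h3, i, hu', rfl⟩
    refine Set.Finite.subset ((Set.finite_singleton _).union ?_) h1
    exact hfin.biUnion fun y _ => (finite_children hsum y hτ).image _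
  have hs1 : s + 1 ≠ ∞ := ENNReal.add_ne_top.mpr ⟨hτ, ENNReal.one_ne_top⟩
  set C : Set (List ℕ) := ⋃ y ∈ A, (fun i => i :: y) '' {i | birth x (i :: y) ≤ s + 1} with hC
  have hCfin : C.Finite := hAfin.biUnion fun y _ => (finite_children hsum y hs1).image _
  set V : Set ℝ≥0∞ := insert (s + 1) (birth x '' (C \ A)) with hV
  have hVfin : V.Finite := ((hCfin.subset Set.sdiff_subset).image _).insert _
  obtain ⟨m, hmV, hmin⟩ := hVfin.exists_minimal ⟨s + 1, Set.mem_insert _ _⟩
  have hVs : ∀ v ∈ V, s < v := by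
    intro v hv
    rcases hv with rfl | ⟨u, ⟨_, hu⟩, rfl⟩
    · exact ENNReal.lt_add_right hτ one_ne_zero
    · exact not_le.mp hu
  have hmin' : ∀ v ∈ V, m ≤ v := by
    intro v hv
    rcases le_total m v with h | h
    · exact h
    · exact hmin hv h
  obtain ⟨t, ht1, ht2⟩ := exists_between (hVs m hmV)
  have hsub : ∀ u, birth x u ≤ t → u ∈ A := by
    intro u
    induction u with
    | nil =>
      intro _
      show birth x [] ≤ s
      simp [birth]
    | cons i y ih =>
      intro hu
      have hy := ih ((birth_le i y).trans hu)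
      by_contra hnA
      have hts : t ≤ s + 1 := ht2.le.trans (hmin' _ (Set.mem_insert _ _))
      have hmem : (i :: y) ∈ C := by
        simp only [hC, Set.mem_iUnion]
        exact ⟨y, hy, i, hu.trans hts, rfl⟩
      have h2 : m ≤ birth x (i :: y) := hmin' _ (Or.inr ⟨_, ⟨hmem, hnA⟩, rfl⟩)
      exact absurd (h2.trans hu) (not_le.mpr ht2)
  have h3 : sInf {t | {u | birth x u ≤ t}.Infinite} < t := ht1
  rw [sInf_lt_iff] at h3
  obtain ⟨t', ht', hlt⟩ := h3
  have ht'' : {u | birth x u ≤ t'}.Infinite := ht'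
  exact ht'' (hAfin.subset fun u hu => hsub u (le_trans hu hlt.le))

end Pool.Agent.Q217.CMJ
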