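import Pool.Agent.Q217.CMJ.Chain

set_option autoImplicit false

open Filter Topology MeasureTheory ProbabilityTheory
open scoped ENNReal

namespace Pool.Agent.Q217.CMJ

theorem two_inv_add (m : ℕ) : (2⁻¹ : ℝ≥0∞) ^ (m + 1) + 2⁻¹ ^ (m + 1) = 2⁻¹ ^ m := by
  rw [pow_succ, ← mul_add, ENNReal.inv_two_add_inv_two, mul_one]

theorem geom_sum (m : ℕ) : ∑ j ∈ Finset.range m, (2⁻¹ : ℝ≥0∞) ^ (j + 1) ≤ 1 := by
  have h : ∑ j ∈ Finset.range m, (2⁻¹ : ℝ≥0∞) ^ (j + 1) + 2⁻¹ ^ m = 1 := by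
    induction m with
    | zero => simp
    | succ m ih => rw [Finset.sum_range_succ, add_assoc, two_inv_add, ih]
  calc _ ≤ ∑ j ∈ Finset.range m, (2⁻¹ : ℝ≥0∞) ^ (j + 1) + 2⁻¹ ^ m := le_self_add
    _ = 1 := h

def Reg (x : Om) : Prop := ∀ p : List ℕ × ℕ, p.2 ∉ J → x p ≤ (4⁻¹ : ℝ≥0∞) ^ (p.2 + 1)

theorem four_eq (j : ℕ) : (4⁻¹ : ℝ≥0∞) ^ j = 2⁻¹ ^ j * 2⁻¹ ^ j := by
  rw [← mul_pow]
  congr 1
  rw [← ENNReal.mul_inv (by simp) (by simp)]
  norm_num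

theorem good_sum {x : Om} (hr : Reg x) {k : ℕ} {v : List ℕ} (hx : x ∈ Good k v) {m : ℕ} (hm : m ≤ g k) :
    ∑ j ∈ Finset.range m, x (v, j) ≤ 2⁻¹ ^ k := by
  have h1 : ∀ j ∈ Finset.range m, x (v, j) ≤ (2⁻¹ : ℝ≥0∞) ^ (j + 1) * 2⁻¹ ^ k := by
    intro j hj
    rw [Finset.mem_range] at hj
    by_cases hD : j ∈ D k
    · exact hx j hD
    · have h2 : ¬ j < k + 1 := fun h => hD (Finset.mem_union_left _ (Finset.mem_range.mpr h))
      have h3 : j ∉ J := by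
        rintro ⟨i, rfl⟩
        apply hD
        refine Finset.mem_union_right _ (Finset.mem_image.mpr ⟨i, ?_, rfl⟩)
        exact Finset.mem_range.mpr (g_strictMono.lt_iff_lt.mp (lt_of_lt_of_le hj hm))
      refine (hr (v, j) h3).trans ?_
      rw [four_eq]
      refine mul_le_mul' le_rfl ?_
      exact pow_le_pow_right_of_le_one' (by norm_num) (by show k ≤ j + 1; omega)
  calc ∑ j ∈ Finset.range m, x (v, j) ≤ ∑ j ∈ Finset.range m, (2⁻¹ : ℝ≥0∞) ^ (j + 1) * 2⁻¹ ^ k :=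
        Finset.sum_le_sum h1
    _ = (∑ j ∈ Finset.range m, (2⁻¹ : ℝ≥0∞) ^ (j + 1)) * 2⁻¹ ^ k := by rw [Finset.sum_mul]
    _ ≤ 1 * 2⁻¹ ^ k := mul_le_mul' (geom_sum m) le_rfl
    _ = _ := one_mul _

theorem chain_desc {x : Om} (hr : Reg x) (n k : ℕ) (v : List ℕ) (hx : x ∈ Chain n k v) :
    ∃ w : List ℕ, w.length = v.length + n ∧ birth x w ≤ birth x v + (2⁻¹ ^ k + 2⁻¹ ^ k) := by
  induction n generalizing k v with
  | zero => exact ⟨v, rfl, le_self_add⟩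
  | succ n ih =>
    obtain ⟨h1, h2⟩ := hx
    simp only [Set.mem_iUnion] at h2
    obtain ⟨c, hc, h3⟩ := h2
    rw [Finset.mem_range] at hc
    obtain ⟨w, hw1, hw2⟩ := ih (k + 1) (c :: v) h3
    refine ⟨w, by rw [hw1, List.length_cons]; omega, ?_⟩
    rw [two_inv_add] at hw2
    refine hw2.trans ?_
    have h4 : birth x (c :: v) ≤ birth x v + 2⁻¹ ^ k := by
      show birth x v + ∑ j ∈ Finset.range (c + 1), x (v, j) ≤ _
      exact add_le_add le_rfl (good_sum hr h1 (by omega))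
    calc birth x (c :: v) + 2⁻¹ ^ k ≤ birth x v + 2⁻¹ ^ k + 2⁻¹ ^ k := add_le_add h4 le_rfl
      _ = _ := add_assoc _ _ _

def EE (v : List ℕ) : Set Om := ⋂ n, Chain n 0 v

theorem EE_prob (v : List ℕ) : (4⁻¹ : ℝ≥0∞) ≤ P (EE v) := by
  have hanti : Antitone fun n => Chain n 0 v := antitone_nat_of_succ_le fun n => Chain_anti n 0 v
  have h1 := tendsto_measure_iInter_atTop (μ := P) (s := fun n => Chain n 0 v)
    (fun n => (sig_le _ _ (Chain_meas n 0 v)).nullMeasurableSet) hanti ⟨0, measure_ne_top _ _⟩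
  refine ge_of_tendsto' h1 fun n => ?_
  have h2 := Chain_prob n 0 v
  refine le_trans (le_of_eq ?_) h2
  rw [show (4⁻¹ : ℝ≥0∞) = 4⁻¹ ^ 1 by rw [pow_one], four_eq]
  norm_num

theorem ae_exists : ∀ᵐ x ∂P, ∃ c : ℕ, x ∈ EE [c] := by
  rw [ae_iff]
  have hm : ∀ c : ℕ, MeasurableSet[sig (Sub [c])] (EE [c]) := fun c =>
    MeasurableSet.iInter fun n => Chain_meas n 0 [c]
  have hle : ∀ m : ℕ, P {x | ¬ ∃ c : ℕ, x ∈ EE [c]} ≤ (1 - 4⁻¹ : ℝ≥0∞) ^ m := by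
    intro m
    have hsub : {x : Om | ¬ ∃ c : ℕ, x ∈ EE [c]} ⊆ ⋂ c ∈ Finset.range m, (EE [c])ᶜ := by
      intro x hx
      simp only [Set.mem_iInter]
      intro c _ hc
      exact hx ⟨c, hc⟩
    refine (measure_mono hsub).trans ?_
    refine prod_compl [] (fun c => EE [c]) hm _ (fun c => ?_) m
    rw [measure_compl (sig_le _ _ (hm c)) (measure_ne_top _ _), measure_univ]
    exact tsub_le_tsub_left (EE_prob _) 1
  have hlim : Tendsto (fun m : ℕ => (1 - 4⁻¹ : ℝ≥0∞) ^ m) atTop (𝓝 0) := by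
    refine ENNReal.tendsto_pow_atTop_nhds_zero_of_lt_one ?_
    exact ENNReal.sub_lt_self ENNReal.one_ne_top one_ne_zero (by simp)
  exact le_antisymm (ge_of_tendsto' hlim hle) bot_le

theorem main : ∀ᵐ x ∂P, (tree x).Infinite ∧ explosionTime x < ∞ ∧ ∀ u, ¬ IsStar x u := by
  filter_upwards [ae_pos, ae_fin, ae_reg, ae_sum, ae_exists] with x hpos hfin hreg hsum hex
  obtain ⟨c, hc⟩ := hex
  have hτ : explosionTime x < ∞ := by
    have hb : birth x [c] + 2 < ∞ := by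
      refine ENNReal.add_lt_top.mpr ⟨?_, by norm_num⟩
      show (0 : ℝ≥0∞) + ∑ j ∈ Finset.range (c + 1), x ([], j) < ∞
      rw [zero_add]
      exact ENNReal.sum_lt_top.mpr fun j _ => lt_top_iff_ne_top.mpr (hfin _)
    refine lt_of_le_of_lt (sInf_le ?_) hb
    show {u | birth x u ≤ birth x [c] + 2}.Infinite
    intro hf
    -- lengths are bounded on a finite set
    obtain ⟨N, hN⟩ := (hf.image List.length).bddAbove
    obtain ⟨w, hw1, hw2⟩ := chain_desc hreg (N + 1) 0 [c] (Set.mem_iInter.mp hc (N + 1))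
    have h1 : w ∈ {u | birth x u ≤ birth x [c] + 2} := by
      refine le_trans hw2 (add_le_add le_rfl ?_)
      norm_num
    have h2 := hN ⟨w, h1, rfl⟩
    rw [hw1] at h2
    simp at h2
    omega
  exact ⟨tree_infinite hpos hsum hτ.ne, hτ, no_star hsum hτ.ne⟩

end Pool.Agent.Q217.CMJ
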