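import Pool.Agent.Q217.CMJ.Det

set_option autoImplicit false

open Filter Topology MeasureTheory ProbabilityTheory
open scoped ENNReal

namespace Pool.Agent.Q217.CMJ

/-- generation widths -/
def g (k : ℕ) : ℕ := 2 * 2 ^ ((k + 2) * (2 * k + 3))

theorem g_strictMono : StrictMono g := by
  refine strictMono_nat_of_lt_succ fun k => ?_
  unfold g
  have h : (k + 2) * (2 * k + 3) < (k + 1 + 2) * (2 * (k + 1) + 3) := by nlinarith
  have := Nat.pow_lt_pow_right (a := 2) (by norm_num) h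
  omega

/-- the positions at which the waiting time is sometimes long -/
def J : Set ℕ := Set.range g

open Classical in
/-- the waiting time before the `j`-th child as a function of a uniform variable -/
noncomputable def fj (j : ℕ) (t : ℝ) : ℝ≥0∞ :=
  if j ∈ J ∧ 1 / 2 ≤ t then 1 else (4⁻¹ : ℝ≥0∞) ^ (j + 1) * ENNReal.ofReal t

theorem fj_meas (j : ℕ) : Measurable (fj j) := by
  unfold fj
  refine Measurable.ite ?_ measurable_const ?_
  · by_cases h : j ∈ J
    · simp only [h, true_and]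
      exact measurableSet_Ici
    · simp only [h, false_and]
      exact MeasurableSet.empty
  · exact measurable_const.mul ENNReal.measurable_ofReal

/-- uniform law on `(0, 1]` -/
noncomputable def unif : Measure ℝ := volume.restrict (Set.Ioc 0 1)

instance : IsProbabilityMeasure unif := ⟨by
  unfold unif
  rw [Measure.restrict_apply_univ, Real.volume_Ioc]
  norm_num⟩

noncomputable def μ (j : ℕ) : Measure ℝ≥0∞ := unif.map (fj j)

instance (j : ℕ) : IsProbabilityMeasure (μ j) :=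
  Measure.isProbabilityMeasure_map (fj_meas j).aemeasurable

theorem four_pow_ne (j : ℕ) : (4⁻¹ : ℝ≥0∞) ^ (j + 1) ≠ 0 := by
  refine pow_ne_zero _ ?_
  simp

theorem μ_zero (j : ℕ) : μ j {0} = 0 := by
  unfold μ
  rw [Measure.map_apply (fj_meas j) (measurableSet_singleton 0)]
  have h : fj j ⁻¹' {0} ⊆ Set.Iic 0 := by
    intro t ht
    simp only [Set.mem_preimage, Set.mem_singleton_iff, fj] at ht
    split_ifs at ht with h1
    · exact absurd ht one_ne_zero
    · rcases mul_eq_zero.mp ht with h2 | h2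
      · exact absurd h2 (four_pow_ne j)
      · exact ENNReal.ofReal_eq_zero.mp h2
  refine measure_mono_null h ?_
  unfold unif
  rw [Measure.restrict_apply measurableSet_Iic]
  have : Set.Iic (0 : ℝ) ∩ Set.Ioc 0 1 = ∅ := by
    ext t
    simp only [Set.mem_inter_iff, Set.mem_Iic, Set.mem_Ioc, Set.mem_empty_iff_false, iff_false]
    rintro ⟨h1, h2, _⟩
    linarith
  rw [this, measure_empty]

/-- short waiting times -/
def short (j k : ℕ) : Set ℝ≥0∞ := Set.Iic ((2⁻¹ : ℝ≥0∞) ^ (j + 1) * 2⁻¹ ^ k)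

theorem short_meas (j k : ℕ) : MeasurableSet (short j k) := measurableSet_Iic

theorem four_le_two (j : ℕ) : (4⁻¹ : ℝ≥0∞) ^ (j + 1) ≤ 2⁻¹ ^ (j + 1) := by
  refine pow_le_pow_left' ?_ _
  rw [ENNReal.inv_le_inv]
  norm_num

theorem μ_short (j k : ℕ) : (2⁻¹ : ℝ≥0∞) ^ (k + 1) ≤ μ j (short j k) := by
  unfold μ
  rw [Measure.map_apply (fj_meas j) (short_meas j k)]
  have hpow : (2⁻¹ : ℝ) ^ (k + 1) ≤ 2⁻¹ := by
    calc (2⁻¹ : ℝ) ^ (k + 1) ≤ 2⁻¹ ^ 1 := pow_le_pow_of_le_one (by norm_num) (by norm_num) (by omega)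
      _ = 2⁻¹ := pow_one _
  have h : Set.Ioo 0 ((2⁻¹ : ℝ) ^ (k + 1)) ⊆ fj j ⁻¹' short j k := by
    intro t ht
    have ht2 : ¬ (j ∈ J ∧ 1 / 2 ≤ t) := by
      rintro ⟨_, h1⟩
      have := ht.2
      norm_num at *
      linarith
    simp only [Set.mem_preimage, short, Set.mem_Iic, fj]
    rw [if_neg ht2]
    refine mul_le_mul' (four_le_two j) ?_
    have e : (2⁻¹ : ℝ≥0∞) ^ k = ENNReal.ofReal ((2⁻¹ : ℝ) ^ k) := by
      rw [ENNReal.ofReal_pow (by norm_num), ENNReal.ofReal_inv_of_pos (by norm_num)]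
      norm_num
    rw [e]
    refine ENNReal.ofReal_le_ofReal (ht.2.le.trans ?_)
    exact pow_le_pow_of_le_one (by norm_num) (by norm_num) (by omega)
  refine le_trans ?_ (measure_mono h)
  unfold unif
  rw [Measure.restrict_apply measurableSet_Ioo]
  have e : Set.Ioo 0 ((2⁻¹ : ℝ) ^ (k + 1)) ∩ Set.Ioc 0 1 = Set.Ioo 0 ((2⁻¹ : ℝ) ^ (k + 1)) := by
    refine Set.inter_eq_left.mpr fun t ht => ⟨ht.1, ?_⟩
    have := ht.2
    norm_num at *
    linarith
  rw [e, Real.volume_Ioo, sub_zero, ENNReal.ofReal_pow (by norm_num),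
    ENNReal.ofReal_inv_of_pos (by norm_num)]
  norm_num

theorem μ_reg {j : ℕ} (hj : j ∉ J) : μ j (Set.Iic ((4⁻¹ : ℝ≥0∞) ^ (j + 1)))ᶜ = 0 := by
  unfold μ
  rw [Measure.map_apply (fj_meas j) measurableSet_Iic.compl]
  unfold unif
  rw [Measure.restrict_apply ((fj_meas j) measurableSet_Iic.compl)]
  have : fj j ⁻¹' (Set.Iic ((4⁻¹ : ℝ≥0∞) ^ (j + 1)))ᶜ ∩ Set.Ioc 0 1 = ∅ := by
    ext t
    simp only [Set.mem_inter_iff, Set.mem_empty_iff_false, iff_false]
    rintro ⟨h1, h2⟩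
    apply h1
    simp only [Set.mem_Iic, fj]
    rw [if_neg (by tauto)]
    calc (4⁻¹ : ℝ≥0∞) ^ (j + 1) * ENNReal.ofReal t ≤ (4⁻¹ : ℝ≥0∞) ^ (j + 1) * 1 := by
          refine mul_le_mul' le_rfl ?_
          rw [← ENNReal.ofReal_one]
          exact ENNReal.ofReal_le_ofReal h2.2
      _ = _ := mul_one _
  rw [this, measure_empty]

theorem μ_finite (j : ℕ) : μ j {∞} = 0 := by
  unfold μ
  rw [Measure.map_apply (fj_meas j) (measurableSet_singleton _)]
  have : fj j ⁻¹' {∞} = ∅ := by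
    ext t
    simp only [Set.mem_preimage, Set.mem_singleton_iff, Set.mem_empty_iff_false, iff_false, fj]
    split_ifs
    · exact ENNReal.one_ne_top
    · exact ENNReal.mul_ne_top (ENNReal.pow_ne_top (by simp)) ENNReal.ofReal_ne_top
  rw [this, measure_empty]

theorem μ_long {j : ℕ} (hj : j ∈ J) : μ j {1}ᶜ ≤ 2⁻¹ := by
  unfold μ
  rw [Measure.map_apply (fj_meas j) (measurableSet_singleton _).compl]
  have h : fj j ⁻¹' {1}ᶜ ⊆ Set.Iio (1 / 2) := by
    intro t ht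
    by_contra hge
    apply ht
    simp only [Set.mem_singleton_iff, fj]
    rw [if_pos ⟨hj, not_lt.mp hge⟩]
  refine (measure_mono h).trans ?_
  unfold unif
  rw [Measure.restrict_apply measurableSet_Iio]
  have e : Set.Iio (1 / 2 : ℝ) ∩ Set.Ioc 0 1 ⊆ Set.Ioo 0 (1 / 2) := fun t ht => ⟨ht.2.1, ht.1⟩
  refine (measure_mono e).trans ?_
  rw [Real.volume_Ioo, sub_zero, one_div, ENNReal.ofReal_inv_of_pos (by norm_num)]
  norm_num

/-- the law of the whole process -/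
noncomputable def P : Measure (List ℕ × ℕ → ℝ≥0∞) := Measure.infinitePi (fun p => μ p.2)

instance : IsProbabilityMeasure P := by unfold P; infer_instance

theorem P_eval (p : List ℕ × ℕ) {s : Set ℝ≥0∞} (hs : MeasurableSet s) :
    P {x | x p ∈ s} = μ p.2 s := by
  have h := (measurePreserving_eval_infinitePi (μ := fun p : List ℕ × ℕ => μ p.2) p).measure_preimage
    hs.nullMeasurableSet
  exact h

theorem ae_pos : ∀ᵐ x ∂P, ∀ p, x p ≠ 0 := by
  rw [ae_all_iff]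
  intro p
  rw [ae_iff]
  have : {x : List ℕ × ℕ → ℝ≥0∞ | ¬ x p ≠ 0} = {x | x p ∈ ({0} : Set ℝ≥0∞)} := by
    ext x; simp
  rw [this, P_eval p (measurableSet_singleton 0)]
  exact μ_zero _

theorem ae_fin : ∀ᵐ x ∂P, ∀ p, x p ≠ ∞ := by
  rw [ae_all_iff]
  intro p
  rw [ae_iff]
  have : {x : List ℕ × ℕ → ℝ≥0∞ | ¬ x p ≠ ∞} = {x | x p ∈ ({∞} : Set ℝ≥0∞)} := by
    ext x; simp
  rw [this, P_eval p (measurableSet_singleton _)]
  exact μ_finite _

theorem ae_reg : ∀ᵐ x ∂P, ∀ p : List ℕ × ℕ, p.2 ∉ J → x p ≤ (4⁻¹ : ℝ≥0∞) ^ (p.2 + 1) := by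
  rw [ae_all_iff]
  intro p
  by_cases hp : p.2 ∈ J
  · exact Eventually.of_forall fun x h => absurd hp h
  · rw [ae_iff]
    have : {x : List ℕ × ℕ → ℝ≥0∞ | ¬ (p.2 ∉ J → x p ≤ (4⁻¹ : ℝ≥0∞) ^ (p.2 + 1))} =
        {x | x p ∈ (Set.Iic ((4⁻¹ : ℝ≥0∞) ^ (p.2 + 1)))ᶜ} := by
      ext x; simp [hp]
    rw [this, P_eval p measurableSet_Iic.compl]
    exact μ_reg hp

theorem ae_sum : ∀ᵐ x ∂P, ∀ u, ∑' j, x (u, j) = ∞ := by
  rw [ae_all_iff]
  intro u
  -- for all `a`, almost surely some `i ≥ a` has `x (u, g i) = 1`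
  have h1 : ∀ a : ℕ, ∀ᵐ x ∂P, ∃ i, a ≤ i ∧ x (u, g i) = 1 := by
    intro a
    rw [ae_iff]
    have hle : ∀ m : ℕ, P {x | ¬ ∃ i, a ≤ i ∧ x (u, g i) = 1} ≤ (2⁻¹ : ℝ≥0∞) ^ m := by
      intro m
      set s : Finset (List ℕ × ℕ) := (Finset.Ico a (a + m)).image (fun i => (u, g i)) with hs
      have hsub : {x : List ℕ × ℕ → ℝ≥0∞ | ¬ ∃ i, a ≤ i ∧ x (u, g i) = 1} ⊆
          Set.pi s (fun _ => ({1} : Set ℝ≥0∞)ᶜ) := by
        intro x hx p hp
        rw [hs, Finset.mem_coe, Finset.mem_image] at hp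
        obtain ⟨i, hi, rfl⟩ := hp
        intro h1
        exact hx ⟨i, (Finset.mem_Ico.mp hi).1, h1⟩
      refine (measure_mono hsub).trans ?_
      unfold P
      rw [Measure.infinitePi_pi _ (fun i _ => (measurableSet_singleton _).compl), hs,
        Finset.prod_image (fun i _ j _ hij => g_strictMono.injective (Prod.mk.inj hij).2)]
      calc ∏ i ∈ Finset.Ico a (a + m), μ (u, g i).2 {1}ᶜ ≤ ∏ i ∈ Finset.Ico a (a + m), (2⁻¹ : ℝ≥0∞) :=
            Finset.prod_le_prod' fun i _ => μ_long ⟨i, rfl⟩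
        _ = (2⁻¹ : ℝ≥0∞) ^ m := by rw [Finset.prod_const, Nat.card_Ico, Nat.add_sub_cancel_left]
    have hlim : Tendsto (fun m : ℕ => (2⁻¹ : ℝ≥0∞) ^ m) atTop (𝓝 0) :=
      ENNReal.tendsto_pow_atTop_nhds_zero_of_lt_one (by norm_num)
    exact le_antisymm (ge_of_tendsto' hlim hle) bot_le
  rw [← ae_all_iff] at h1
  filter_upwards [h1] with x hx
  -- the partial sums are unbounded
  have h2 : ∀ m : ℕ, ∃ s : Finset ℕ, (m : ℝ≥0∞) ≤ ∑ j ∈ s, x (u, j) := by
    intro m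
    suffices h : ∃ s : Finset ℕ, (m : ℝ≥0∞) ≤ ∑ j ∈ s, x (u, j) from h
    induction m with
    | zero => exact ⟨∅, by simp⟩
    | succ m ih =>
      obtain ⟨s, hs⟩ := ih
      obtain ⟨i, hi, hxi⟩ := hx (s.sup id + 1)
      have hni : g i ∉ s := by
        intro hmem
        have h3 : g i ≤ s.sup id := Finset.le_sup (f := id) hmem
        have h4 : i ≤ g i := g_strictMono.le_apply
        omega
      refine ⟨insert (g i) s, ?_⟩
      rw [Finset.sum_insert hni, hxi]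
      push_cast
      rw [add_comm]
      exact add_le_add_right hs 1
  rw [ENNReal.tsum_eq_iSup_sum]
  refine ENNReal.eq_top_of_forall_nnreal_le fun r => ?_
  obtain ⟨m, hm⟩ := exists_nat_ge r
  obtain ⟨s, hs⟩ := h2 m
  refine le_trans ?_ (le_trans hs (le_iSup (fun s : Finset ℕ => ∑ j ∈ s, x (u, j)) s))
  exact_mod_cast hm

end Pool.Agent.Q217.CMJ
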